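import Mathlib

/-!
Frobenius pushforwards of the tautological extension on `X = Gr(2,n)`.

`X` is given by its Plücker embedding, `X = Proj ⨁_d (pluckerSpan k n) ^ d`, and the sheaves are
given by their sections over the basic affine open sets `D_+(f)`, all of them realised inside the
function field of the space of `2 × n` matrices `(x_1 … x_n ; y_1 … y_n)`.
-/

open MvPolynomial

namespace Pool.Agent.Results.MP_da5d07_ag.FrobeniusSplit

universe u v

variable (k : Type u) [Field k] (n : ℕ)

/-- The polynomial ring `k[x_1,…,x_n,y_1,…,y_n]`; the variable `X (0, i)` is `x_i`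
and `X (1, i)` is `y_i`. -/
abbrev MatRing : Type u := MvPolynomial (Fin 2 × Fin n) k

/-- The Plücker coordinate `p_{ij} = x_i y_j - x_j y_i`. -/
noncomputable def plucker (i j : Fin n) : MatRing k n :=
  X (0, i) * X (1, j) - X (0, j) * X (1, i)

/-- The `k`-span of the Plücker coordinates.  Its `d`-th power (the `k`-span of the products of `d`
Plücker coordinates) is the degree `d` part of the homogeneous coordinate ring of
`X = Gr(2,n)` in its Plücker embedding. -/
noncomputable def pluckerSpan : Submodule k (MatRing k n) :=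
  Submodule.span k (Set.range fun ij : Fin n × Fin n => plucker k n ij.1 ij.2)

/-- A basic affine open subset `D_+(f)` of `X = Gr(2,n)`: `f ≠ 0` is homogeneous of positive
degree `deg` in the homogeneous coordinate ring. -/
structure BasicOpen where
  /-- the degree of `f` -/
  deg : ℕ
  pos : 0 < deg
  /-- the function `f` -/
  f : MatRing k n
  mem : f ∈ pluckerSpan k n ^ deg
  ne : f ≠ 0

variable {k n}
variable (K : Type v) [Field K] [Algebra (MatRing k n) K]

/-- The sections of `O_X(t)` over `D_+(f)`: the fractions `a / f ^ r` with `a` homogeneous of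
degree `t + r * deg f` in the homogeneous coordinate ring.  They are elements of the fraction field
`K` of `k[x_1,…,x_n,y_1,…,y_n]`. For `t = 0` this is the coordinate ring of `D_+(f)`. -/
def secO (U : BasicOpen k n) (t : ℤ) : Set K :=
  {z | ∃ (r d : ℕ) (a : MatRing k n), (d : ℤ) = t + r * U.deg ∧ a ∈ pluckerSpan k n ^ d ∧
    z * (algebraMap (MatRing k n) K U.f) ^ r = algebraMap (MatRing k n) K a}

variable {K}

lemma pow_mem_pow_mul {m : ℕ} {f : MatRing k n} (hf : f ∈ pluckerSpan k n ^ m) (r : ℕ) :
    f ^ r ∈ pluckerSpan k n ^ (r * m) := by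
  rw [mul_comm, pow_mul]
  exact Submodule.pow_mem_pow _ hf r

lemma secO_add {U : BasicOpen k n} {t : ℤ} {z w : K} (hz : z ∈ secO K U t)
    (hw : w ∈ secO K U t) : z + w ∈ secO K U t := by
  obtain ⟨r, d, a, hd, ha, h1⟩ := hz
  obtain ⟨s, e, b, he, hb, h2⟩ := hw
  refine ⟨r + s, d + s * U.deg, a * U.f ^ s + b * U.f ^ r, ?_, ?_, ?_⟩
  · push_cast
    rw [hd]; ring
  · apply Submodule.add_mem
    · rw [pow_add]
      exact Submodule.mul_mem_mul ha (pow_mem_pow_mul U.mem s)
    · have : d + s * U.deg = e + r * U.deg := by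
        have : ((d + s * U.deg : ℕ) : ℤ) = ((e + r * U.deg : ℕ) : ℤ) := by
          push_cast
          rw [hd, he]; ring
        exact_mod_cast this
      rw [this, pow_add]
      exact Submodule.mul_mem_mul hb (pow_mem_pow_mul U.mem r)
  · rw [map_add, map_mul, map_mul, map_pow, map_pow, ← h1, ← h2]
    ring

lemma secO_mul {U : BasicOpen k n} {t t' : ℤ} {z w : K} (hz : z ∈ secO K U t)
    (hw : w ∈ secO K U t') : z * w ∈ secO K U (t + t') := by
  obtain ⟨r, d, a, hd, ha, h1⟩ := hz
  obtain ⟨s, e, b, he, hb, h2⟩ := hw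
  refine ⟨r + s, d + e, a * b, ?_, ?_, ?_⟩
  · push_cast
    rw [hd, he]; ring
  · rw [pow_add]
    exact Submodule.mul_mem_mul ha hb
  · rw [map_mul, ← h1, ← h2]
    ring

lemma secO_neg {U : BasicOpen k n} {t : ℤ} {z : K} (hz : z ∈ secO K U t) :
    -z ∈ secO K U t := by
  obtain ⟨r, d, a, hd, ha, h1⟩ := hz
  exact ⟨r, d, -a, hd, Submodule.neg_mem _ ha, by rw [map_neg, ← h1]; ring⟩

lemma secO_zero {U : BasicOpen k n} {t : ℤ} : (0 : K) ∈ secO K U t := by
  refine ⟨t.natAbs, (t + t.natAbs * U.deg).toNat, 0, ?_, Submodule.zero_mem _, by simp⟩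
  rw [Int.toNat_of_nonneg]
  have h1 : (1 : ℤ) ≤ U.deg := by exact_mod_cast U.pos
  have h2 : -t ≤ (t.natAbs : ℤ) := by omega
  nlinarith [Int.natCast_nonneg t.natAbs]

lemma secO_one (U : BasicOpen k n) : (1 : K) ∈ secO K U 0 := by
  refine ⟨0, 0, 1, by simp, ?_, by simp⟩
  rw [pow_zero]
  exact Submodule.mem_one.2 ⟨1, map_one _⟩

variable (K)

/-- The sections of `V ⊗ O_X(t)`, `V = k^n`, over `D_+(f)`. -/
def secV (U : BasicOpen k n) (t : ℤ) : Set (Fin n → K) :=
  {v | ∀ i, v i ∈ secO K U t}

/-- The sections of `R ⊗ O_X(t)` over `D_+(f)`, `R ⊆ V ⊗ O_X` being the tautological subbundle: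
the sections of `V ⊗ O_X(t)` which are `K`-combinations of the two rows `(x_1,…,x_n)` and
`(y_1,…,y_n)`. -/
def secR (U : BasicOpen k n) (t : ℤ) : Set (Fin n → K) :=
  {v | v ∈ secV K U t ∧ ∃ c : Fin 2 → K, ∀ i, v i =
    ∑ r, c r * algebraMap (MatRing k n) K (X (r, i))}

variable (k n)

/-- Let `q` be a power of the characteristic of `k`, let `F` be the corresponding power of the
absolute Frobenius morphism of `X = Gr(2,n)`, and let `L = O_X(t)`.  This says that the exact
sequence of `O_X`-modules `0 → F_*(R ⊗ L) → F_*(V ⊗ L) → F_*(Q ⊗ L) → 0` is split, i.e. that the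
inclusion `F_*(R ⊗ L) → F_*(V ⊗ L)` has an `O_X`-linear retraction: there are maps
`ρ_U : (V ⊗ L)(U) → (R ⊗ L)(U)` for all basic affine open sets `U`, which are additive, linear over
`O_X(U)` acting through `q`-th powers, the identity on `(R ⊗ L)(U)`, and compatible with
restriction (a section over `U` and a section over `U'` have the same restriction to `U ∩ U'` iff
they are the same element of `K ^ n`). -/
def PushforwardSplits (t : ℤ) (q : ℕ) : Prop :=
  ∃ ρ : BasicOpen k n → (Fin n → K) → (Fin n → K),
    (∀ U, ∀ v ∈ secV K U t, ρ U v ∈ secR K U t) ∧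
    (∀ U, ∀ v ∈ secV K U t, ∀ w ∈ secV K U t, ρ U (v + w) = ρ U v + ρ U w) ∧
    (∀ U, ∀ a ∈ secO K U 0, ∀ v ∈ secV K U t, ρ U (a ^ q • v) = a ^ q • ρ U v) ∧
    (∀ U, ∀ v ∈ secR K U t, ρ U v = v) ∧
    (∀ U U', ∀ v, v ∈ secV K U t → v ∈ secV K U' t → ρ U v = ρ U' v)

variable {k n}

/-! ### Derivations -/

open KaehlerDifferential in
lemma exists_ext {S : Type u} [CommRing S] {K : Type v} [Field K] [Algebra S K] [IsDomain S]
    [IsFractionRing S K] (D : Derivation ℤ S S) :
    ∃ D' : Derivation ℤ K K, ∀ a : S, D' (algebraMap S K a) = algebraMap S K (D a) := by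
  have : Algebra.FormallyEtale S K := Algebra.FormallyEtale.of_isLocalization (nonZeroDivisors S)
  let D1 : Derivation ℤ S K := (Algebra.linearMap S K).compDer D
  let l1 : Ω[S⁄ℤ] →ₗ[S] K := D1.liftKaehlerDifferential
  let l2 : TensorProduct S K (Ω[S⁄ℤ]) →ₗ[K] K := LinearMap.liftBaseChange K l1
  let l3 : Ω[K⁄ℤ] →ₗ[K] K := l2 ∘ₗ (tensorKaehlerEquivOfFormallyEtale ℤ S K).symm.toLinearMap
  refine ⟨l3.compDer (KaehlerDifferential.D ℤ K), fun a => ?_⟩
  have h := tensorKaehlerEquivOfFormallyEtale_symm_D_algebraMap ℤ S K a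
  change l2 ((tensorKaehlerEquivOfFormallyEtale ℤ S K).symm
    (KaehlerDifferential.D ℤ K (algebraMap S K a))) = _
  rw [h]
  simp only [l2, l1, LinearMap.liftBaseChange_tmul, one_smul]
  rw [Derivation.liftKaehlerDifferential_comp_D]
  rfl

lemma der_pow_mem {P : Submodule k (MatRing k n)}
    (D : Derivation k (MatRing k n) (MatRing k n)) (hD : ∀ x ∈ P, D x ∈ P) (d : ℕ) :
    ∀ x ∈ P ^ d, D x ∈ P ^ d := by
  induction d with
  | zero =>
    intro x hx
    rw [pow_zero, Submodule.mem_one] at hx
    obtain ⟨c, rfl⟩ := hx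
    rw [Derivation.map_algebraMap]
    exact Submodule.zero_mem _
  | succ d ih =>
    intro x hx
    rw [pow_succ] at hx
    induction hx using Submodule.mul_induction_on' with
    | mem_mul_mem a ha b hb =>
      rw [Derivation.leibniz, pow_succ, smul_eq_mul, smul_eq_mul]
      apply Submodule.add_mem
      · exact Submodule.mul_mem_mul ha (hD b hb)
      · rw [mul_comm b (D a)]
        exact Submodule.mul_mem_mul (ih a ha) hb
    | add a _ b _ ha hb =>
      rw [map_add]
      exact Submodule.add_mem _ ha hb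

lemma der_pow_eig {P : Submodule k (MatRing k n)}
    (D : Derivation k (MatRing k n) (MatRing k n)) (c : MatRing k n) (hD : ∀ x ∈ P, D x = c * x)
    (d : ℕ) : ∀ x ∈ P ^ d, D x = d * c * x := by
  induction d with
  | zero =>
    intro x hx
    rw [pow_zero, Submodule.mem_one] at hx
    obtain ⟨c, rfl⟩ := hx
    rw [Derivation.map_algebraMap]
    simp
  | succ d ih =>
    intro x hx
    rw [pow_succ] at hx
    induction hx using Submodule.mul_induction_on' with
    | mem_mul_mem a ha b hb =>
      rw [Derivation.leibniz, smul_eq_mul, smul_eq_mul, hD b hb, ih a ha]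
      push_cast
      ring
    | add a _ b _ ha hb =>
      rw [map_add, ha, hb]
      ring

/-- the derivation `E_{ab} = x_a ∂/∂x_b + y_a ∂/∂y_b`. -/
noncomputable def EE (a b : Fin n) : Derivation k (MatRing k n) (MatRing k n) :=
  ∑ r : Fin 2, (X (r, a) : MatRing k n) • pderiv (r, b)

/-- the derivation `D_{rs}` replacing the row `s` by the row `r`. -/
noncomputable def DD (r s : Fin 2) : Derivation k (MatRing k n) (MatRing k n) :=
  ∑ c : Fin n, (X (r, c) : MatRing k n) • pderiv (s, c)

lemma EE_apply (a b : Fin n) (z : MatRing k n) :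
    EE a b z = ∑ r : Fin 2, X (r, a) * pderiv (r, b) z := by
  unfold EE
  have h := congrFun (map_sum (Derivation.coeFnAddMonoidHom : Derivation k (MatRing k n)
    (MatRing k n) →+ _) (fun r : Fin 2 => (X (r, a) : MatRing k n) • pderiv (r, b))
    Finset.univ) z
  rw [Finset.sum_apply] at h
  exact h

lemma DD_apply (r s : Fin 2) (z : MatRing k n) :
    DD r s z = ∑ c : Fin n, X (r, c) * pderiv (s, c) z := by
  unfold DD
  have h := congrFun (map_sum (Derivation.coeFnAddMonoidHom : Derivation k (MatRing k n)
    (MatRing k n) →+ _) (fun c : Fin n => (X (r, c) : MatRing k n) • pderiv (s, c))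
    Finset.univ) z
  rw [Finset.sum_apply] at h
  exact h

lemma EE_X (a b c : Fin n) (r : Fin 2) :
    EE a b (X (r, c) : MatRing k n) = if c = b then X (r, a) else 0 := by
  classical
  rw [EE_apply, Finset.sum_eq_single r]
  · rw [pderiv_X]
    by_cases h : c = b
    · subst h; simp
    · rw [if_neg h]
      have : (r, c) ≠ (r, b) := fun hh => h (Prod.ext_iff.1 hh).2
      simp [this]
  · intro r' _ hr
    rw [pderiv_X]
    have : (r, c) ≠ (r', b) := fun hh => hr (Prod.ext_iff.1 hh).1.symm
    simp [this]
  · simp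

lemma DD_X (r s r' : Fin 2) (c : Fin n) :
    DD r s (X (r', c) : MatRing k n) = if r' = s then X (r, c) else 0 := by
  classical
  rw [DD_apply, Finset.sum_eq_single c]
  · rw [pderiv_X]
    by_cases h : r' = s
    · subst h; simp
    · rw [if_neg h]
      have : (r', c) ≠ (s, c) := fun hh => h (Prod.ext_iff.1 hh).1
      simp [this]
  · intro c' _ hr
    rw [pderiv_X]
    have : (r', c) ≠ (s, c') := fun hh => hr (Prod.ext_iff.1 hh).2.symm
    simp [this]
  · simp

lemma EE_plucker (a b i j : Fin n) :
    EE a b (plucker k n i j) =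
      (if i = b then plucker k n a j else 0) + (if j = b then plucker k n i a else 0) := by
  unfold plucker
  rw [map_sub, Derivation.leibniz, Derivation.leibniz, EE_X, EE_X, EE_X, EE_X]
  simp only [smul_eq_mul]
  split_ifs <;> ring

lemma EE_mem (a b : Fin n) : ∀ x ∈ pluckerSpan k n, EE a b x ∈ pluckerSpan k n := by
  intro x hx
  unfold pluckerSpan at hx ⊢
  induction hx using Submodule.span_induction with
  | mem x hx =>
    obtain ⟨⟨i, j⟩, rfl⟩ := hx
    simp only
    rw [EE_plucker]
    apply Submodule.add_mem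
    · split_ifs
      · exact Submodule.subset_span ⟨(a, j), rfl⟩
      · exact Submodule.zero_mem _
    · split_ifs
      · exact Submodule.subset_span ⟨(i, a), rfl⟩
      · exact Submodule.zero_mem _
  | zero => rw [map_zero]; exact Submodule.zero_mem _
  | add x y _ _ hx hy => rw [map_add]; exact Submodule.add_mem _ hx hy
  | smul c x _ hx => rw [Derivation.map_smul]; exact Submodule.smul_mem _ _ hx

lemma DD_plucker (r s : Fin 2) (i j : Fin n) :
    DD r s (plucker k n i j) = (if r = s then 1 else 0) * plucker k n i j := by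
  unfold plucker
  rw [map_sub, Derivation.leibniz, Derivation.leibniz, DD_X, DD_X, DD_X, DD_X]
  simp only [smul_eq_mul]
  fin_cases r <;> fin_cases s <;> simp <;> ring

lemma DD_eig (r s : Fin 2) : ∀ x ∈ pluckerSpan k n,
    DD r s x = (if r = s then 1 else 0) * x := by
  intro x hx
  unfold pluckerSpan at hx
  induction hx using Submodule.span_induction with
  | mem x hx =>
    obtain ⟨⟨i, j⟩, rfl⟩ := hx
    exact DD_plucker r s i j
  | zero => rw [map_zero, mul_zero]
  | add x y _ _ hx hy => rw [map_add, hx, hy, mul_add]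
  | smul c x _ hx => rw [Derivation.map_smul, hx, mul_smul_comm]

/-! ### Derivations of the fraction field -/

set_option linter.unusedSectionVars false

section field

variable {K : Type v} [Field K] [Algebra (MatRing k n) K] [IsFractionRing (MatRing k n) K]

lemma algebraMap_ne_zero {f : MatRing k n} (hf : f ≠ 0) : algebraMap (MatRing k n) K f ≠ 0 := by
  intro h
  exact hf ((IsFractionRing.injective (MatRing k n) K) (by rw [h, map_zero]))

lemma der_pow_mul {D' : Derivation ℤ K K} (y : K) (r : ℕ) :
    D' (y ^ r) * y = r * y ^ r * D' y := by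
  rw [Derivation.leibniz_pow]
  rcases Nat.eq_zero_or_pos r with h | h
  · subst h; simp
  · have : y ^ r = y ^ (r - 1) * y := by
      rw [← pow_succ]; congr 1; omega
    rw [this]
    simp only [smul_eq_mul, nsmul_eq_mul]
    ring

lemma der_secO {D' : Derivation ℤ K K} {D : Derivation k (MatRing k n) (MatRing k n)}
    (hDD : ∀ a, D' (algebraMap (MatRing k n) K a) = algebraMap (MatRing k n) K (D a))
    (hD : ∀ x ∈ pluckerSpan k n, D x ∈ pluckerSpan k n) {U : BasicOpen k n} {t : ℤ} {z : K}
    (hz : z ∈ secO K U t) : D' z ∈ secO K U t := by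
  obtain ⟨r, d, a, hd, ha, h1⟩ := hz
  refine ⟨r + 1, d + U.deg, D a * U.f - a * (r * D U.f), ?_, ?_, ?_⟩
  · push_cast
    rw [hd]; ring
  · apply Submodule.sub_mem
    · rw [pow_add]
      exact Submodule.mul_mem_mul (der_pow_mem D hD d a ha) U.mem
    · rw [pow_add]
      apply Submodule.mul_mem_mul ha
      rw [← nsmul_eq_mul]
      exact Submodule.smul_of_tower_mem _ _ (der_pow_mem D hD U.deg _ U.mem)
  · have h2 := congrArg D' h1
    rw [Derivation.leibniz, hDD, smul_eq_mul, smul_eq_mul] at h2
    have h3 := der_pow_mul (D' := D') (algebraMap (MatRing k n) K U.f) r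
    rw [hDD] at h3
    simp only [map_sub, map_mul, map_natCast]
    rw [← h1, pow_succ]
    linear_combination (algebraMap (MatRing k n) K U.f) * h2 - z * h3

lemma der_secO_eig {D' : Derivation ℤ K K} {D : Derivation k (MatRing k n) (MatRing k n)}
    (hDD : ∀ a, D' (algebraMap (MatRing k n) K a) = algebraMap (MatRing k n) K (D a))
    {c : ℕ} (hD : ∀ x ∈ pluckerSpan k n, D x = c * x) {U : BasicOpen k n} {t : ℤ} {z : K}
    (hz : z ∈ secO K U t) : D' z = c * t * z := by
  obtain ⟨r, d, a, hd, ha, h1⟩ := hz
  have hf := algebraMap_ne_zero (K := K) U.ne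
  have h2 := congrArg D' h1
  rw [Derivation.leibniz, hDD, smul_eq_mul, smul_eq_mul] at h2
  have h3 := der_pow_mul (D' := D') (algebraMap (MatRing k n) K U.f) r
  rw [hDD, der_pow_eig D (c : MatRing k n) hD U.deg _ U.mem] at h3
  rw [der_pow_eig D (c : MatRing k n) hD d _ ha] at h2
  simp only [map_mul, map_natCast] at h2 h3
  rw [← h1] at h2
  have hd' : (d : K) = (t : K) + r * U.deg := by
    have := congrArg (Int.cast : ℤ → K) hd
    push_cast at this
    exact this
  have h4 : D' z * (algebraMap (MatRing k n) K U.f) ^ (r + 1)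
      = c * t * z * (algebraMap (MatRing k n) K U.f) ^ (r + 1) := by
    rw [pow_succ]
    rw [hd'] at h2
    linear_combination (algebraMap (MatRing k n) K U.f) * h2 - z * h3
  exact mul_right_cancel₀ (pow_ne_zero _ hf) h4

lemma plucker_ne_zero {i j : Fin n} (hij : i ≠ j) : plucker k n i j ≠ 0 := by
  classical
  intro h
  have h1 := congrArg (MvPolynomial.eval (fun rc : Fin 2 × Fin n =>
    if rc = (0, i) ∨ rc = (1, j) then (1 : k) else 0)) h
  unfold plucker at h1
  simp [hij, hij.symm] at h1

lemma rows_indep (hn : 2 ≤ n) {c : Fin 2 → K}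
    (h : ∀ i : Fin n, ∑ r, c r * algebraMap (MatRing k n) K (X (r, i)) = 0) : ∀ r, c r = 0 := by
  let i0 : Fin n := ⟨0, by omega⟩
  let i1 : Fin n := ⟨1, by omega⟩
  have hne : i0 ≠ i1 := by
    intro hh
    have := congrArg Fin.val hh
    simp [i0, i1] at this
  have hp := algebraMap_ne_zero (K := K) (plucker_ne_zero (k := k) hne)
  have h0 := h i0
  have h1 := h i1
  simp only [Fin.sum_univ_two] at h0 h1
  unfold plucker at hp
  simp only [map_sub, map_mul] at hp
  intro r
  apply mul_right_cancel₀ hp
  rw [zero_mul]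
  fin_cases r
  · simp only [Fin.zero_eta]
    linear_combination (algebraMap (MatRing k n) K (X (1, i1))) * h0
      - (algebraMap (MatRing k n) K (X (1, i0))) * h1
  · simp only [Fin.mk_one]
    linear_combination (algebraMap (MatRing k n) K (X (0, i0))) * h1
      - (algebraMap (MatRing k n) K (X (0, i1))) * h0

variable (k n K)

lemma exists_dd : ∃ dd : Fin 2 → Fin n → Derivation ℤ K K, ∀ (r : Fin 2) (b : Fin n)
    (a : MatRing k n), dd r b (algebraMap (MatRing k n) K a)
      = algebraMap (MatRing k n) K (pderiv (r, b) a) := by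
  have h := fun (r : Fin 2) (b : Fin n) =>
    exists_ext (K := K) (Derivation.restrictScalars ℤ (pderiv (R := k) (r, b)))
  choose dd hdd using h
  exact ⟨dd, hdd⟩

variable {k n K}

lemma sum_der_apply {ι : Type} [Fintype ι] (f : ι → K) (D : ι → Derivation ℤ K K) (z : K) :
    (∑ i, f i • D i) z = ∑ i, f i * D i z := by
  have h := congrFun (map_sum (Derivation.coeFnAddMonoidHom : Derivation ℤ K K →+ _)
    (fun i => f i • D i) Finset.univ) z
  rw [Finset.sum_apply] at h
  exact h

lemma main_op (hn : 2 ≤ n) : ∃ T : (Fin n → K) → (Fin n → K),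
    (∀ v w, T (v + w) = T v + T w) ∧
    (∀ (U : BasicOpen k n) (t : ℤ) (v : Fin n → K), (∀ i, v i ∈ secO K U t) →
      ∀ i, T v i ∈ secO K U t) ∧
    (∀ v : Fin n → K, ∃ c : Fin 2 → K, ∀ i, T v i =
      ∑ r, c r * algebraMap (MatRing k n) K (X (r, i))) ∧
    (∀ (q : ℕ), (q : k) = 0 → ∀ (a : K) (v : Fin n → K), T (a ^ q • v) = a ^ q • T v) ∧
    (∀ (U : BasicOpen k n) (t : ℤ) (v : Fin n → K), (∀ i, v i ∈ secO K U t) →
      (∃ c : Fin 2 → K, ∀ i, v i = ∑ r, c r * algebraMap (MatRing k n) K (X (r, i))) →
      T v = ((n : K) + t - 2) • v) := by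
  obtain ⟨dd, hdd⟩ := exists_dd k n K
  refine ⟨fun v a => ∑ r, (∑ b, dd r b (v b)) * algebraMap (MatRing k n) K (X (r, a)),
    ?_, ?_, ?_, ?_, ?_⟩
  · intro v w
    funext a
    simp only [Pi.add_apply, map_add, Finset.sum_add_distrib, add_mul]
  · intro U t v hv i
    have h1 : (∑ r, (∑ b, dd r b (v b)) * algebraMap (MatRing k n) K (X (r, i)))
        = ∑ b, (∑ r, algebraMap (MatRing k n) K (X (r, i)) • dd r b) (v b) := by
      simp only [sum_der_apply, Finset.sum_mul]
      rw [Finset.sum_comm]
      exact Finset.sum_congr rfl fun b _ => Finset.sum_congr rfl fun r _ => mul_comm _ _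
    simp only
    rw [h1]
    have hsum : ∀ s : Finset (Fin n), (∑ b ∈ s,
        (∑ r, algebraMap (MatRing k n) K (X (r, i)) • dd r b) (v b)) ∈ secO K U t := by
      intro s
      classical
      induction s using Finset.induction_on with
      | empty => simpa using secO_zero
      | insert b s hb ih =>
        rw [Finset.sum_insert hb]
        apply secO_add _ ih
        refine der_secO (D := EE i b) ?_ (EE_mem i b) (hv b)
        intro a
        rw [sum_der_apply, EE_apply, map_sum]
        exact Finset.sum_congr rfl fun r _ => by rw [hdd, map_mul]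
    exact hsum Finset.univ
  · intro v
    exact ⟨fun r => ∑ b, dd r b (v b), fun i => rfl⟩
  · intro q hq a v
    have hqK : (q : K) = 0 := by
      have : algebraMap (MatRing k n) K (C (q : k)) = (q : K) := by simp
      rw [← this, hq]; simp
    have hder : ∀ D : Derivation ℤ K K, D (a ^ q) = 0 := by
      intro D
      rw [Derivation.leibniz_pow, nsmul_eq_mul, hqK, zero_mul]
    funext i
    simp only [Pi.smul_apply, smul_eq_mul, Derivation.leibniz, hder, mul_zero, add_zero,
      Finset.mul_sum, ← mul_assoc]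
  · intro U t v hv hc
    obtain ⟨c, hc⟩ := hc
    set x : Fin 2 → Fin n → K := fun r i => algebraMap (MatRing k n) K (X (r, i)) with hx
    have hDx : ∀ (r s r' : Fin 2) (i : Fin n),
        (∑ j, x r j • dd s j) (x r' i) = if r' = s then x r i else 0 := by
      intro r s r' i
      rw [sum_der_apply]
      have h1 := congrArg (algebraMap (MatRing k n) K) (DD_X (k := k) r s r' i)
      rw [DD_apply, map_sum] at h1
      rw [show (if r' = s then x r i else 0) =
        algebraMap (MatRing k n) K (if r' = s then X (r, i) else 0) by split_ifs <;> simp [hx]]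
      rw [← h1]
      refine Finset.sum_congr rfl fun j _ => ?_
      rw [map_mul, hx, hdd]
    have hDc : ∀ r s r' : Fin 2, (∑ j, x r j • dd s j) (c r')
        = (if r = s then 1 else 0) * t * c r' - (if r' = r then c s else 0) := by
      intro r s
      have key : ∀ i : Fin n, ∑ r', ((∑ j, x r j • dd s j) (c r')
          - ((if r = s then 1 else 0) * t * c r' - (if r' = r then c s else 0)))
            * algebraMap (MatRing k n) K (X (r', i)) = 0 := by
        intro i
        have h1 : (∑ j, x r j • dd s j) (v i) = ((if r = s then 1 else 0 : ℕ) : K) * t * v i := by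
          refine der_secO_eig (D := DD r s) ?_ ?_ (hv i)
          · intro a
            rw [sum_der_apply, DD_apply, map_sum]
            exact Finset.sum_congr rfl fun j _ => by rw [hdd, map_mul]
          · intro y hy
            rw [DD_eig r s y hy]
            push_cast
            rfl
        rw [hc i, map_sum] at h1
        simp only [Derivation.leibniz, smul_eq_mul] at h1
        have h2 : ∀ r' : Fin 2, (∑ j, x r j • dd s j) (algebraMap (MatRing k n) K (X (r', i)))
            = if r' = s then x r i else 0 := fun r' => hDx r s r' i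
        simp only [h2] at h1
        push_cast at h1
        rw [Finset.mul_sum, Finset.sum_add_distrib] at h1
        have h3 : ∑ r', c r' * (if r' = s then x r i else 0) = c s * x r i := by
          simp
        rw [h3] at h1
        have h4 : ∑ r', (if r' = r then c s else 0) * algebraMap (MatRing k n) K (X (r', i))
            = c s * x r i := by
          simp [hx]
        simp only [sub_mul, Finset.sum_sub_distrib]
        rw [h4]
        have h5 : ∑ r', (∑ j, x r j • dd s j) (c r') * algebraMap (MatRing k n) K (X (r', i))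
            = ∑ r', algebraMap (MatRing k n) K (X (r', i)) * (∑ j, x r j • dd s j) (c r') :=
          Finset.sum_congr rfl fun _ _ => mul_comm _ _
        rw [h5]
        have h6 : ∑ r', (if r = s then 1 else 0) * (t : K) * c r'
              * algebraMap (MatRing k n) K (X (r', i))
            = ∑ r', (if r = s then 1 else 0) * (t : K)
              * (c r' * algebraMap (MatRing k n) K (X (r', i))) :=
          Finset.sum_congr rfl fun _ _ => by ring
        rw [h6]
        linear_combination h1
      intro r'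
      exact sub_eq_zero.1 (rows_indep hn key r')
    funext a
    simp only [Pi.smul_apply, smul_eq_mul]
    rw [hc a, Finset.mul_sum]
    refine Finset.sum_congr rfl fun r _ => ?_
    rw [← mul_assoc]
    congr 1
    have h1 : ∀ b, dd r b (v b) = c r + ∑ s, x s b * dd r b (c s) := by
      intro b
      rw [hc b, map_sum]
      simp only [Derivation.leibniz, smul_eq_mul]
      rw [Finset.sum_add_distrib]
      congr 1
      · rw [Finset.sum_eq_single r]
        · rw [hdd, pderiv_X_self, map_one, mul_one]
        · intro s _ hs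
          rw [hdd, pderiv_X_of_ne, map_zero, mul_zero]
          intro h
          exact hs (Prod.ext_iff.1 h).1
        · simp
    simp only [h1]
    rw [Finset.sum_add_distrib, Finset.sum_comm]
    have h2 : ∀ s, ∑ b, x s b * dd r b (c s) = (∑ j, x s j • dd r j) (c s) := by
      intro s
      rw [sum_der_apply]
    simp only [h2, hDc]
    simp only [Fin.sum_univ_two, Finset.sum_const, Finset.card_univ, Fintype.card_fin,
      nsmul_eq_mul]
    fin_cases r <;> simp <;> ring

lemma secO_C (U : BasicOpen k n) (c : k) :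
    algebraMap (MatRing k n) K (C c) ∈ secO K U 0 := by
  refine ⟨0, 0, C c, by simp, ?_, by simp⟩
  rw [pow_zero]
  exact Submodule.mem_one.2 ⟨c, rfl⟩

end field

/-- **Main theorem** (for `t = -2` the condition on `p` reads: `p` does not divide `n - 4`). Let `k` be a field of characteristic `p > 0`, `n ≥ 2`, `X = Gr(2,n)` over `k`
and `L = O_X(t)`.  If `p` does not divide `n + t - 2`, then for every `e ≥ 1` the sequence
`0 → F^e_*(R ⊗ L) → F^e_*(V ⊗ L) → F^e_*(Q ⊗ L) → 0` of `O_X`-modules is split. -/
theorem result (p : ℕ) [Fact p.Prime] (k : Type u) [Field k] [CharP k p] (n : ℕ) (hn : 2 ≤ n)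
    (t : ℤ) (ht : ¬ ((p : ℤ) ∣ n + t - 2))
    (K : Type v) [Field K] [Algebra (MatRing k n) K] [IsFractionRing (MatRing k n) K]
    (e : ℕ) (he : 1 ≤ e) : PushforwardSplits k n K t (p ^ e) := by
  obtain ⟨T, hadd, hmem, hrow, hlin, hscal⟩ := main_op (k := k) (K := K) hn
  have hq : ((p ^ e : ℕ) : k) = 0 := by
    push_cast
    rw [CharP.cast_eq_zero k p, zero_pow (by omega)]
  -- the scalar
  have hck : ((n : k) + t - 2) ≠ 0 := by
    intro h
    apply ht
    rw [← CharP.intCast_eq_zero_iff k p]
    push_cast
    exact h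
  have h2K : algebraMap (MatRing k n) K (C (2 : k)) = 2 := by
    rw [show (C (2 : k) : MatRing k n) = 2 from map_ofNat C 2]
    exact map_ofNat _ 2
  have hcK : ((n : K) + t - 2) = algebraMap (MatRing k n) K (C ((n : k) + t - 2)) := by
    simp only [map_sub, map_add, map_natCast, map_intCast, h2K]
  have hcK0 : ((n : K) + t - 2) ≠ 0 := by
    rw [hcK]
    apply algebraMap_ne_zero
    intro h
    exact hck (C_injective _ _ (by rw [h, map_zero]))
  have hinv : ((n : K) + t - 2)⁻¹ = algebraMap (MatRing k n) K (C ((n : k) + t - 2)⁻¹) := by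
    apply inv_eq_of_mul_eq_one_left
    rw [hcK, ← map_mul, ← C_mul, inv_mul_cancel₀ hck]
    simp
  set c : K := (n : K) + t - 2 with hc
  refine ⟨fun _ v => c⁻¹ • T v, ?_, ?_, ?_, ?_, ?_⟩
  · intro U v hv
    refine ⟨fun i => ?_, ?_⟩
    · have h1 := secO_mul (secO_C (K := K) U ((n : k) + t - 2)⁻¹) (hmem U t v hv i)
      rw [← hinv, zero_add] at h1
      exact h1
    · obtain ⟨d, hd⟩ := hrow v
      refine ⟨fun r => c⁻¹ * d r, fun i => ?_⟩
      change c⁻¹ * T v i = _
      rw [hd i, Finset.mul_sum]
      exact Finset.sum_congr rfl fun r _ => by ring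
  · intro U v _ w _
    change c⁻¹ • T (v + w) = c⁻¹ • T v + c⁻¹ • T w
    rw [hadd, smul_add]
  · intro U a _ v _
    change c⁻¹ • T (a ^ (p ^ e) • v) = a ^ (p ^ e) • (c⁻¹ • T v)
    rw [hlin _ hq, smul_comm]
  · intro U v hv
    change c⁻¹ • T v = v
    rw [hscal U t v hv.1 hv.2, smul_smul, inv_mul_cancel₀ hcK0, one_smul]
  · intro U U' v _ _
    rfl

end Pool.Agent.Results.MP_da5d07_ag.FrobeniusSplit
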